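import Pool.Agent.PQP.StmtsC

/-!
# Squad PQP, row SYM (helper65): moving caps
-/

set_option autoImplicit false

open scoped InnerProductSpace Topology ContDiff Manifold
open MeasureTheory Filter Set

noncomputable section

namespace Pool.Agent.PQP.H65

open Pool.Agent.PQP Pool.Agent.Helper42_Paneitz Pool.Agent.Helper82_Vir Pool.Agent.FLX

theorem ip_le (e y : S4) : ⟪(e : E5), (y : E5)⟫_ℝ ≤ 1 := by
  have h := real_inner_le_norm (e : E5) (y : E5)
  rwa [norm_eq_of_mem_sphere, norm_eq_of_mem_sphere, one_mul] at h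

theorem ip_cont (e : S4) : Continuous fun y : S4 => ⟪(e : E5), (y : E5)⟫_ℝ :=
  continuous_const.inner continuous_subtype_val

theorem hcap_closed (e : S4) (s : ℝ) : IsClosed (hcap e s) :=
  isClosed_le continuous_const (ip_cont e)

theorem ftau_cont (hT : TauStmt) {f : S4 → ℝ} (hf : Continuous f) (e : S4) :
    ContinuousOn (fun z : ℝ × S4 => ftau e z.1 f z.2) (Ioo (-1 : ℝ) 1 ×ˢ (univ : Set S4)) := by
  unfold ftau
  have h1 : ContinuousOn (fun z : ℝ × S4 => tau e z.1 z.2) (Ioo (-1 : ℝ) 1 ×ˢ (univ : Set S4)) :=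
    (hT e 0 (by norm_num) (by norm_num)).2.2.2.2.2.2.2
  have hc : Continuous fun z : ℝ × S4 => ⟪(e : E5), (z.2 : E5)⟫_ℝ :=
    (ip_cont e).comp continuous_snd
  refine (hf.comp_continuousOn h1).mul (ContinuousOn.pow ?_ 4)
  unfold capJ
  refine ContinuousOn.div ?_ ?_ ?_
  · exact Continuous.continuousOn (by fun_prop)
  · exact Continuous.continuousOn (by fun_prop)
  · rintro ⟨s, x⟩ ⟨hs, -⟩
    exact ((hT e s hs.1 hs.2).1 x).1.ne'

theorem ftau_contAt (hT : TauStmt) {f : S4 → ℝ} (hf : Continuous f) (e : S4) {s : ℝ}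
    (h1 : -1 < s) (h2 : s < 1) (x : S4) :
    ContinuousAt (fun z : ℝ × S4 => ftau e z.1 f z.2) (s, x) :=
  (ftau_cont hT hf e).continuousAt
    ((isOpen_Ioo.prod isOpen_univ).mem_nhds ⟨⟨h1, h2⟩, mem_univ _⟩)

theorem ftau_cont1 (hT : TauStmt) {f : S4 → ℝ} (hf : Continuous f) (e : S4) {s : ℝ}
    (h1 : -1 < s) (h2 : s < 1) : Continuous (ftau e s f) := by
  rw [continuous_iff_continuousAt]
  intro x
  have h3 : ContinuousAt (fun y : S4 => (s, y)) x := by fun_prop
  exact ContinuousAt.comp (g := fun z : ℝ × S4 => ftau e z.1 f z.2) (f := fun y : S4 => (s, y))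
    (ftau_contAt hT hf e h1 h2 x) h3

theorem ftau_cont2 (hT : TauStmt) {f : S4 → ℝ} (hf : Continuous f) (e : S4) {s : ℝ}
    (h1 : -1 < s) (h2 : s < 1) (x : S4) : ContinuousAt (fun t => ftau e t f x) s := by
  have h3 : ContinuousAt (fun t : ℝ => (t, x)) s := by fun_prop
  exact ContinuousAt.comp (g := fun z : ℝ × S4 => ftau e z.1 f z.2) (f := fun t : ℝ => (t, x))
    (ftau_contAt hT hf e h1 h2 x) h3

/-- the statement of the row MOV for one function -/
def MovP (f : S4 → ℝ) (κ : ℝ) : Prop :=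
  ∀ (e : S4) (s h : ℝ), -1 < s → s < 1 → 0 ≤ h →
    h ≤ κ * (1 + s) → (∀ y : S4, s + h < ⟪(e : E5), (y : E5)⟫_ℝ → f y ≤ ftau e s f y) →
    ∀ x ∈ hcap e s, f x ≤ ftau e s f x

theorem start {f : S4 → ℝ} {κ : ℝ} (hκ : 0 < κ) (hM : MovP f κ) (e : S4) {s : ℝ} (h0 : 0 ≤ s)
    (h1 : s < 1) (h : 1 - s ≤ κ) : ∀ x ∈ hcap e s, f x ≤ ftau e s f x := by
  apply hM e s (1 - s) (by linarith) h1 (by linarith)
  · nlinarith
  · intro y hy
    have := ip_le e y
    exfalso
    linarith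

theorem stop (hT : TauStmt) {f : S4 → ℝ} {κ : ℝ} (hκ : 0 < κ)
    (hM : MovP f κ) (e : S4) {s : ℝ} (h0 : s ≤ 0) (h1 : -1 < s) (h : 1 + s ≤ κ) :
    ∀ z ∈ hcap e s, ftau e s f z ≤ f z := by
  intro z hz
  obtain ⟨t1, t2, -, t4, -, -, t7, -⟩ := hT e s h1 (by linarith)
  have g1 := start hκ hM (-e) (s := -s) (by linarith) (by linarith) (by linarith)
  have hy : tau e s z ∈ hcap (-e) (-s) := by
    have e1 : ((-e : S4) : E5) = -(e : E5) := rfl
    change -s ≤ ⟪((-e : S4) : E5), (tau e s z : E5)⟫_ℝ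
    rw [e1, inner_neg_left, t2 z, neg_le_neg_iff, div_le_iff₀ (t1 z).1]
    have hc : s ≤ ⟪(e : E5), (z : E5)⟫_ℝ := hz
    have h3 : 0 ≤ (⟪(e : E5), (z : E5)⟫_ℝ - s) * (1 - s ^ 2) :=
      mul_nonneg (by linarith) (by nlinarith)
    nlinarith [h3]
  have h2 := g1 _ hy
  unfold ftau at h2
  rw [(t7 _).1, (t7 _).2, (t4 z).1] at h2
  have hJ := (t1 z).2.1
  unfold ftau
  calc f (tau e s z) * capJ e s z ^ 4
      ≤ (f z * capJ e s (tau e s z) ^ 4) * capJ e s z ^ 4 :=
        mul_le_mul_of_nonneg_right h2 (by positivity)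
    _ = f z * (capJ e s (tau e s z) * capJ e s z) ^ 4 := by ring
    _ = f z := by rw [(t4 z).2]; ring

theorem bd_eq {f : S4 → ℝ} (hT : TauStmt) (e : S4) {s : ℝ} (h1 : -1 < s) (h2 : s < 1) {x : S4}
    (hx : ⟪(e : E5), (x : E5)⟫_ℝ = s) : ftau e s f x = f x := by
  have hp : (0 : ℝ) < 1 - s ^ 2 := by nlinarith
  have e1 : 1 + s ^ 2 - 2 * s * ⟪(e : E5), (x : E5)⟫_ℝ = 1 - s ^ 2 := by
    rw [hx]
    ring
  have hJ : capJ e s x = 1 := by
    unfold capJ
    rw [e1, div_self hp.ne']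
  have ht : tau e s x = x := by
    apply Subtype.ext
    rw [((hT e s h1 h2).1 x).2.2]
    unfold tauE
    rw [e1, hx, sub_self, mul_zero, zero_smul, sub_zero, smul_smul, inv_mul_cancel₀ hp.ne',
      one_smul]
  unfold ftau
  rw [hJ, ht]
  ring

theorem strict (hT : TauStmt) (hI : IdeStmt) (hG : GsmStmt) {f : S4 → ℝ}
    (hS : Sol (fun _ => 1) f) (e : S4) {s : ℝ} (h1 : -1 < s) (h2 : s < 1)
    (hle : ∀ x ∈ hcap e s, f x ≤ ftau e s f x) {x1 : S4} (hx1 : x1 ∈ hcap e s)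
    (hne : f x1 ≠ ftau e s f x1) (x : S4) (hx : s < ⟪(e : E5), (x : E5)⟫_ℝ) :
    f x < ftau e s f x := by
  obtain ⟨C, hC, hG⟩ := hG
  have hp : (0 : ℝ) < 1 - s ^ 2 := by nlinarith
  have hxc : x ∈ hcap e s := hx.le
  have g0 : ∀ y ∈ hcap e s, 0 ≤ capG e s x y :=
    (hG e s 0 0 (fun _ => 0) ∅ x h1 h2 le_rfl continuous_const (fun _ => le_rfl)
      (fun _ => le_rfl) MeasurableSet.empty (by simp) hxc).1
  obtain ⟨i1, i2⟩ := hI f e s hS h1 h2 x hxc
  have hx1' : s < ⟪(e : E5), (x1 : E5)⟫_ℝ := by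
    rcases lt_or_eq_of_le (show s ≤ ⟪(e : E5), (x1 : E5)⟫_ℝ from hx1) with h | h
    · exact h
    · exact absurd (bd_eq hT e h1 h2 h.symm).symm hne
  obtain ⟨U, hU⟩ : ∃ U : Set S4, U = {y : S4 | s < ⟪(e : E5), (y : E5)⟫_ℝ ∧ f y < ftau e s f y} :=
    ⟨_, rfl⟩
  have oU : IsOpen U := by
    rw [hU]
    exact (isOpen_lt continuous_const (ip_cont e)).inter
      (isOpen_lt hS.1.1 (ftau_cont1 hT hS.1.1 e h1 h2))
  have x1U : x1 ∈ U := by
    rw [hU]
    exact ⟨hx1', lt_of_le_of_ne (hle x1 hx1) hne⟩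
  have pU : 0 < sig U := oU.measure_pos sig ⟨x1, x1U⟩
  have mc : MeasurableSet (hcap e s) := (hcap_closed e s).measurableSet
  have neg : ∫ y in hcap e s, capG e s x y * (f y - ftau e s f y) ∂sig < 0 := by
    by_contra hcon
    push Not at hcon
    have hnp : ∀ᵐ y ∂(sig.restrict (hcap e s)), capG e s x y * (f y - ftau e s f y) ≤ 0 :=
      (ae_restrict_iff' mc).2 (Eventually.of_forall fun y hy =>
        mul_nonpos_of_nonneg_of_nonpos (g0 y hy) (sub_nonpos.2 (hle y hy)))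
    have hz : ∫ y in hcap e s, capG e s x y * (f y - ftau e s f y) ∂sig = 0 :=
      le_antisymm (integral_nonpos_of_ae hnp) hcon
    have hz2 : ∫ y in hcap e s, -(capG e s x y * (f y - ftau e s f y)) ∂sig = 0 := by
      rw [integral_neg, hz, neg_zero]
    have hnn : 0 ≤ᵐ[sig.restrict (hcap e s)]
        fun y => -(capG e s x y * (f y - ftau e s f y)) := by
      filter_upwards [hnp] with y hy
      exact neg_nonneg.2 hy
    have h3 := (integral_eq_zero_iff_of_nonneg_ae hnn i1.neg).1 hz2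
    have h4 : ∀ᵐ y ∂sig, y ∈ hcap e s → -(capG e s x y * (f y - ftau e s f y)) = 0 :=
      (ae_restrict_iff' mc).1 h3
    have h5 : ∀ᵐ y ∂sig, y ∉ U := by
      filter_upwards [h4, ae_ne x] with y hy hyx hyU
      rw [hU] at hyU
      obtain ⟨a1, a2⟩ := hyU
      have b1 := hy a1.le
      have b2 : ⟪(x : E5), (y : E5)⟫_ℝ < 1 :=
        (inner_lt_one_iff_real_of_norm_eq_one (norm_eq_of_mem_sphere x)
          (norm_eq_of_mem_sphere y)).2 (fun h => hyx (Subtype.ext h).symm)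
      have b3 : 0 < capG e s x y := by
        unfold capG
        apply Real.log_pos
        have : 0 < 2 * (⟪(e : E5), (x : E5)⟫_ℝ - s) * (⟪(e : E5), (y : E5)⟫_ℝ - s) /
            ((1 - s ^ 2) * (1 - ⟪(x : E5), (y : E5)⟫_ℝ)) := by
          have c1 : 0 < ⟪(e : E5), (x : E5)⟫_ℝ - s := by linarith
          have c2 : 0 < ⟪(e : E5), (y : E5)⟫_ℝ - s := by linarith
          have c3 : 0 < 1 - ⟪(x : E5), (y : E5)⟫_ℝ := by linarith
          positivity
        linarith
      have b4 : 0 < capG e s x y * (ftau e s f y - f y) := mul_pos b3 (by linarith)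
      linarith
    have h6 : sig U = 0 := by
      rw [ae_iff] at h5
      simpa using h5
    exact pU.ne' h6
  have hJ := ((hT e s h1 h2).1 x).2.1
  have hpos : 0 < ftau e s f x := by
    unfold ftau
    have := hS.1.2.1 (tau e s x)
    positivity
  have hlog : Real.log (f x) < Real.log (ftau e s f x) := by linarith
  exact (Real.log_lt_log_iff (hS.1.2.1 x) hpos).1 hlog

theorem sym (hMOV : MovStmt) (hIDE : IdeStmt) (hTAU : TauStmt) (hGSM : GsmStmt) : SymStmt := by
  intro f e hS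
  obtain ⟨κ, hκ, hM'⟩ := hMOV f hS
  have hM : MovP f κ := hM'
  obtain ⟨T, hT⟩ : ∃ T : Set ℝ, T = {t | -1 < t ∧ t < 1 ∧ ∀ s, t ≤ s → s < 1 →
      ∀ x ∈ hcap e s, f x ≤ ftau e s f x} := ⟨_, rfl⟩
  have Tne : T.Nonempty := by
    refine ⟨max 0 (1 - κ), ?_⟩
    rw [hT]
    refine ⟨lt_of_lt_of_le (by norm_num) (le_max_left _ _), max_lt (by norm_num) (by linarith), ?_⟩
    intro s hs h1
    exact start hκ hM e ((le_max_left _ _).trans hs) h1 (by
      have := (le_max_right (0 : ℝ) (1 - κ)).trans hs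
      linarith)
  have Tb : BddBelow T := ⟨-1, fun t ht => by rw [hT] at ht; exact ht.1.le⟩
  obtain ⟨t0, ht0⟩ : ∃ t0, t0 = sInf T := ⟨_, rfl⟩
  have hm1 : -1 ≤ t0 := by
    rw [ht0]
    exact le_csInf Tne fun t ht => by rw [hT] at ht; exact ht.1.le
  have hlt1 : t0 < 1 := by
    obtain ⟨t, ht⟩ := Tne
    have h1 := csInf_le Tb ht
    rw [hT] at ht
    rw [ht0]
    exact lt_of_le_of_lt h1 ht.2.1
  have good : ∀ s, t0 < s → s < 1 → ∀ x ∈ hcap e s, f x ≤ ftau e s f x := by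
    intro s h1 h2
    obtain ⟨t, ht, hts⟩ := exists_lt_of_csInf_lt Tne (ht0 ▸ h1)
    rw [hT] at ht
    exact ht.2.2 s hts.le h2
  rcases eq_or_lt_of_le hm1 with hc | hc
  · -- the caps exhaust the sphere
    have h1 : t0 < min 0 (κ - 1) := by
      rw [← hc]
      exact lt_min (by norm_num) (by linarith)
    obtain ⟨t, ht, htm⟩ := exists_lt_of_csInf_lt Tne (ht0 ▸ h1)
    rw [hT] at ht
    obtain ⟨a1, a2, a3⟩ := ht
    refine ⟨t, a1, a2, fun x hx => le_antisymm (a3 t le_rfl a2 x hx) ?_⟩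
    exact stop hTAU hκ hM e (htm.le.trans (min_le_left _ _)) a1 (by
      have := htm.le.trans (min_le_right 0 (κ - 1))
      linarith) x hx
  · have good0 : ∀ x ∈ hcap e t0, f x ≤ ftau e t0 f x := by
      intro x hx
      rcases lt_or_eq_of_le (show t0 ≤ ⟪(e : E5), (x : E5)⟫_ℝ from hx) with h | h
      · have h1 : Tendsto (fun t => ftau e t f x) (𝓝[>] t0) (𝓝 (ftau e t0 f x)) :=
          (ftau_cont2 hTAU hS.1.1 e hc hlt1 x).tendsto.mono_left nhdsWithin_le_nhds
        refine ge_of_tendsto h1 ?_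
        have h2 : ∀ᶠ t in 𝓝[>] t0, t < ⟪(e : E5), (x : E5)⟫_ℝ :=
          nhdsWithin_le_nhds (eventually_lt_nhds h)
        have h3 : ∀ᶠ t in 𝓝[>] t0, t < 1 := nhdsWithin_le_nhds (eventually_lt_nhds hlt1)
        filter_upwards [h2, h3, self_mem_nhdsWithin] with t a1 a2 a3
        exact good t a3 a2 x (show t ≤ _ from a1.le)
      · exact (bd_eq hTAU e hc hlt1 h.symm).ge
    by_contra hcon
    have hne : ∃ x1 ∈ hcap e t0, f x1 ≠ ftau e t0 f x1 := by
      by_contra h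
      push Not at h
      exact hcon ⟨t0, hc, hlt1, h⟩
    obtain ⟨x1, hx1, hx1n⟩ := hne
    have st := strict hTAU hIDE hGSM hS e hc hlt1 good0 hx1 hx1n
    obtain ⟨δ, hδ⟩ : ∃ δ, δ = min ((1 + t0) / 2) (min ((1 - t0) / 2) (κ * (1 + t0) / 4)) :=
      ⟨_, rfl⟩
    have d0 : 0 < δ := by
      rw [hδ]
      refine lt_min (by linarith) (lt_min (by linarith) ?_)
      have : 0 < 1 + t0 := by linarith
      positivity
    have d1 : δ ≤ (1 + t0) / 2 := by rw [hδ]; exact min_le_left _ _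
    have d2 : δ ≤ (1 - t0) / 2 := by
      rw [hδ]; exact (min_le_right _ _).trans (min_le_left _ _)
    have d3 : δ ≤ κ * (1 + t0) / 4 := by
      rw [hδ]; exact (min_le_right _ _).trans (min_le_right _ _)
    have cK : IsCompact (hcap e (t0 + δ)) := (hcap_closed e _).isCompact
    have ev : ∀ᶠ s in 𝓝 t0, ∀ y ∈ hcap e (t0 + δ), f y < ftau e s f y := by
      refine cK.eventually_forall_of_forall_eventually
        (P := fun s y => f y < ftau e s f y) ?_
      intro y hy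
      have hy' : t0 + δ ≤ ⟪(e : E5), (y : E5)⟫_ℝ := hy
      have c1 : ContinuousAt (fun z : ℝ × S4 => f z.2) (t0, y) :=
        (hS.1.1.comp continuous_snd).continuousAt
      exact c1.eventually_lt (ftau_contAt hTAU hS.1.1 e hc hlt1 y) (st y (by linarith))
    obtain ⟨ε, hε, hev⟩ := Metric.eventually_nhds_iff.1 ev
    obtain ⟨η, hη⟩ : ∃ η, η = min ε δ := ⟨_, rfl⟩
    have n0 : 0 < η := by rw [hη]; exact lt_min hε d0
    have n1 : η ≤ ε := by rw [hη]; exact min_le_left _ _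
    have n2 : η ≤ δ := by rw [hη]; exact min_le_right _ _
    have gn : ∀ s, |s - t0| < η → ∀ x ∈ hcap e s, f x ≤ ftau e s f x := by
      intro s hs
      obtain ⟨b1, b2⟩ := abs_lt.1 hs
      apply hM e s (t0 + δ - s) (by linarith) (by linarith) (by linarith)
      · have : κ * (1 + t0) / 2 ≤ κ * (1 + s) := by
          have : (1 + t0) / 2 ≤ 1 + s := by linarith
          have := mul_le_mul_of_nonneg_left this hκ.le
          linarith
        linarith
      · intro y hy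
        have e1 : s + (t0 + δ - s) = t0 + δ := by ring
        rw [e1] at hy
        exact (hev (by rw [Real.dist_eq]; linarith) y hy.le).le
    have mem : t0 - η / 2 ∈ T := by
      rw [hT]
      refine ⟨by linarith, by linarith, ?_⟩
      intro s hs1 hs2
      rcases lt_or_ge t0 s with h | h
      · exact good s h hs2
      · exact gn s (by rw [abs_lt]; constructor <;> linarith)
    have := csInf_le Tb mem
    rw [← ht0] at this
    linarith

end Pool.Agent.PQP.H65
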