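import Pool.Agent.PQP.StmtsE
import Pool.Agent.Helper54_FLX.All

/-! PQP, row FAV: the far region (helper65). -/

set_option autoImplicit false

open scoped InnerProductSpace Topology ContDiff Manifold
open MeasureTheory Filter Set

noncomputable section

namespace Pool.Agent.PQP.H65

open Pool.Agent.Helper42_Paneitz Pool.Agent.Helper82_Vir Pool.Agent.FLX Pool.Agent.PQP

theorem log6 {t : ℝ} (h0 : 0 ≤ t) (h2 : t ≤ 2) :
    |Real.log t| ^ 6 ≤ 6 ^ 6 * t ^ (-1 : ℝ) + 1 := by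
  rcases h0.eq_or_lt with h | h
  · rw [← h, Real.log_zero, abs_zero, Real.zero_rpow (by norm_num)]
    norm_num
  have hinv : t ^ (-1 : ℝ) = t⁻¹ := Real.rpow_neg_one t
  rcases le_or_gt t 1 with h1 | h1
  · have key := Real.abs_log_mul_self_rpow_lt t (1 / 6) h h1 (by norm_num)
    rw [abs_mul, abs_of_pos (Real.rpow_pos_of_pos h _)] at key
    have h3 : (|Real.log t| * t ^ (1 / 6 : ℝ)) ^ 6 ≤ (1 / (1 / 6 : ℝ)) ^ 6 :=
      pow_le_pow_left₀ (by positivity) key.le 6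
    have h4 : (t ^ (1 / 6 : ℝ)) ^ 6 = t := by
      rw [← Real.rpow_natCast, ← Real.rpow_mul h.le]
      norm_num
    rw [mul_pow, h4] at h3
    have h5 : |Real.log t| ^ 6 ≤ 6 ^ 6 * t⁻¹ := by
      rw [← div_eq_mul_inv, le_div_iff₀ h]
      calc |Real.log t| ^ 6 * t ≤ (1 / (1 / 6 : ℝ)) ^ 6 := h3
        _ = 6 ^ 6 := by norm_num
    rw [hinv]
    linarith
  · have h3 : 0 ≤ Real.log t := Real.log_nonneg h1.le
    have h4 : Real.log t ≤ 1 := by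
      have := Real.log_le_sub_one_of_pos h
      linarith
    rw [abs_of_nonneg h3]
    have h5 : Real.log t ^ 6 ≤ 1 := pow_le_one₀ h3 h4
    have h6 : 0 ≤ t ^ (-1 : ℝ) := Real.rpow_nonneg h.le _
    nlinarith

theorem young {u q : ℝ} (hu : 0 ≤ u) (hq : 0 < q) : u ≤ q ^ 5 * u ^ 6 + 1 / q := by
  rcases le_or_gt 1 (u * q) with h | h
  · have h1 : 1 ≤ (u * q) ^ 5 := one_le_pow₀ h
    have h2 : u * 1 ≤ u * (u * q) ^ 5 := mul_le_mul_of_nonneg_left h1 hu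
    have h3 : 0 < 1 / q := by positivity
    nlinarith
  · have h1 : u ≤ 1 / q := by
      rw [le_div_iff₀ hq]
      exact h.le
    have h2 : 0 ≤ q ^ 5 * u ^ 6 := by positivity
    linarith

theorem inner_neg_left_S (w y : S4) : 1 - ⟪((-w : S4) : E5), (y : E5)⟫_ℝ = 1 + ⟪(w : E5), (y : E5)⟫_ℝ := by
  rw [show ((-w : S4) : E5) = -(w : E5) from rfl, inner_neg_left]
  ring

/-- FAV -/
theorem fav (hM : MowStmt) : FavStmt := by
  intro ρ hρ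
  obtain ⟨Cv, hCv, hvol⟩ := FLX.H82.vol
  obtain ⟨Cp, hCp, hpow⟩ := FLX.H54.pow_all 1 (by norm_num)
  have hm := msig_pos
  have hC₁ : 0 < 8 / ρ ^ 2 := by positivity
  obtain ⟨C₁, hC₁e⟩ : ∃ C₁ : ℝ, C₁ = 8 / ρ ^ 2 := ⟨_, rfl⟩
  rw [← hC₁e] at hC₁
  obtain ⟨C₃, hC₃e⟩ : ∃ C₃ : ℝ, C₃ = (Cv + msig) * C₁ ^ 2 := ⟨_, rfl⟩
  have hC₃ : 0 ≤ C₃ := by rw [hC₃e]; positivity
  refine ⟨C₁ + C₃ + (2 * C₃ + (6 ^ 6 * Cp + msig)), by positivity, fun w x l hl hl1 => ?_⟩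
  have hT : 0 < 1 - l ^ 2 := by nlinarith
  have hT1 : 1 - l ^ 2 ≤ 1 := by nlinarith
  obtain ⟨T, hTe⟩ : ∃ T : ℝ, T = 1 - l ^ 2 := ⟨_, rfl⟩
  -- first claim
  have first : ∀ y : S4, ρ ≤ ‖(mob (l • (w : E5)) y : E5) - (w : E5)‖ →
      1 + ⟪(w : E5), (y : E5)⟫_ℝ ≤ C₁ * (1 - l ^ 2) := by
    intro y hy
    obtain ⟨-, h1, -, -, h2⟩ := hM w y l (by linarith) hl1
    have hs := neg_one_le_inner w y
    have hs1 := inner_le_one w y
    have h3 : ρ ^ 2 ≤ ‖(mob (l • (w : E5)) y : E5) - (w : E5)‖ ^ 2 :=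
      pow_le_pow_left₀ hρ.le hy 2
    rw [h2, le_div_iff₀ h1] at h3
    generalize ⟪(w : E5), (y : E5)⟫_ℝ = s at *
    have h4 : (1 + s) / 2 ≤ 1 + l * s := by
      rcases le_or_gt 0 s with h | h
      · nlinarith
      · nlinarith
    have h5 : 2 * (1 - l) * (1 - s) ≤ 4 * (1 - l) := by nlinarith
    have h6 : 1 - l ≤ 1 - l ^ 2 := by nlinarith
    have h7 : ρ ^ 2 * ((1 + s) / 2) ≤ 4 * (1 - l ^ 2) := by
      calc ρ ^ 2 * ((1 + s) / 2) ≤ ρ ^ 2 * (1 + l * s) :=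
            mul_le_mul_of_nonneg_left h4 (by positivity)
        _ ≤ 2 * (1 - l) * (1 - s) := h3
        _ ≤ 4 * (1 - l) := h5
        _ ≤ 4 * (1 - l ^ 2) := by linarith
    rw [hC₁e, div_mul_eq_mul_div, le_div_iff₀ (by positivity)]
    linarith
  -- third claim
  have third : sig.real {y : S4 | ρ ≤ ‖(mob (l • (w : E5)) y : E5) - (w : E5)‖} ≤
      C₃ * (1 - l ^ 2) ^ 2 := by
    have hsub : {y : S4 | ρ ≤ ‖(mob (l • (w : E5)) y : E5) - (w : E5)‖} ⊆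
        {y : S4 | 1 - ⟪((-w : S4) : E5), (y : E5)⟫_ℝ ≤ C₁ * (1 - l ^ 2)} := by
      intro y hy
      have := first y hy
      show 1 - ⟪((-w : S4) : E5), (y : E5)⟫_ℝ ≤ C₁ * (1 - l ^ 2)
      rw [inner_neg_left_S]
      exact this
    have hδ : 0 < C₁ * (1 - l ^ 2) := by positivity
    rcases le_or_gt (C₁ * (1 - l ^ 2)) 1 with h | h
    · have h1 := hvol (-w) _ hδ h
      have h2 : sig.real {y : S4 | ρ ≤ ‖(mob (l • (w : E5)) y : E5) - (w : E5)‖} ≤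
          Cv * (C₁ * (1 - l ^ 2)) ^ 2 := by
        refine ENNReal.toReal_le_of_le_ofReal (by positivity) ?_
        exact (measure_mono hsub).trans h1
      refine h2.trans ?_
      rw [hC₃e]
      have h3 : 0 ≤ msig * (C₁ ^ 2 * (1 - l ^ 2) ^ 2) := by positivity
      nlinarith
    · have h1 : sig.real {y : S4 | ρ ≤ ‖(mob (l • (w : E5)) y : E5) - (w : E5)‖} ≤ msig :=
        measureReal_mono (subset_univ _)
      refine h1.trans ?_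
      rw [hC₃e]
      have h2 : 1 ≤ (C₁ * (1 - l ^ 2)) ^ 2 := one_le_pow₀ h.le
      have h3 : 0 ≤ Cv * (C₁ * (1 - l ^ 2)) ^ 2 := by positivity
      have h4 : msig * 1 ≤ msig * (C₁ * (1 - l ^ 2)) ^ 2 := mul_le_mul_of_nonneg_left h2 hm.le
      nlinarith
  refine ⟨fun y hy => (first y hy).trans ?_, ?_, third.trans ?_⟩
  · apply mul_le_mul_of_nonneg_right _ hT.le
    have : 0 ≤ C₃ + (2 * C₃ + (6 ^ 6 * Cp + msig)) := by positivity
    linarith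
  · -- second claim
    have hσ0 : 0 < √(1 - l ^ 2) := Real.sqrt_pos.mpr hT
    have hσ1 : √(1 - l ^ 2) ≤ 1 := Real.sqrt_le_one.mpr hT1
    obtain ⟨q, hqe⟩ : ∃ q : ℝ, q = √(1 - l ^ 2) ^ (2 / 3 : ℝ) := ⟨_, rfl⟩
    have hq0 : 0 < q := by rw [hqe]; exact Real.rpow_pos_of_pos hσ0 _
    have hq1 : q ≤ 1 := by rw [hqe]; exact Real.rpow_le_one hσ0.le hσ1 (by norm_num)
    have hq5 : √(1 - l ^ 2) ^ (10 / 3 : ℝ) = q ^ 5 := by
      rw [hqe, ← Real.rpow_natCast (√(1 - l ^ 2) ^ (2 / 3 : ℝ)) 5, ← Real.rpow_mul hσ0.le]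
      norm_num
    have hq6 : (1 - l ^ 2) ^ 2 = q ^ 6 := by
      rw [hqe, ← Real.rpow_natCast (√(1 - l ^ 2) ^ (2 / 3 : ℝ)) 6, ← Real.rpow_mul hσ0.le]
      have : (2 / 3 : ℝ) * ((6 : ℕ) : ℝ) = ((4 : ℕ) : ℝ) := by norm_num
      rw [this, Real.rpow_natCast]
      have h2 : √(1 - l ^ 2) ^ 2 = 1 - l ^ 2 := Real.sq_sqrt hT.le
      calc (1 - l ^ 2) ^ 2 = (√(1 - l ^ 2) ^ 2) ^ 2 := by rw [h2]
        _ = _ := by ring
    rw [hq5]
    rw [hq6] at third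
    have hpt : ∀ y : S4, 1 + |ell x y| ≤
        (1 + 1 / q) + q ^ 5 * (6 ^ 6 * (1 - ⟪(x : E5), (y : E5)⟫_ℝ) ^ (-1 : ℝ) + 1) := by
      intro y
      have h1 := young (abs_nonneg (ell x y)) hq0
      have h2 : |ell x y| ^ 6 ≤ 6 ^ 6 * (1 - ⟪(x : E5), (y : E5)⟫_ℝ) ^ (-1 : ℝ) + 1 := by
        unfold ell
        rw [abs_neg]
        exact log6 (FLX.H82.one_sub_nonneg x y) (FLX.H82.one_sub_le_two x y)
      have h3 := mul_le_mul_of_nonneg_left h2 (pow_nonneg hq0.le 5)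
      linarith
    have hI1 := (hpow x).1
    have hI2 := (hpow x).2
    have hiA : Integrable (fun _ : S4 => 1 + 1 / q) sig := integrable_const _
    have hiB : Integrable (fun y : S4 =>
        q ^ 5 * (6 ^ 6 * (1 - ⟪(x : E5), (y : E5)⟫_ℝ) ^ (-1 : ℝ) + 1)) sig :=
      ((hI1.const_mul _).add (integrable_const _)).const_mul _
    have hnonneg : ∀ y : S4, 0 ≤ q ^ 5 * (6 ^ 6 * (1 - ⟪(x : E5), (y : E5)⟫_ℝ) ^ (-1 : ℝ) + 1) := by
      intro y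
      have : 0 ≤ (1 - ⟪(x : E5), (y : E5)⟫_ℝ) ^ (-1 : ℝ) :=
        Real.rpow_nonneg (FLX.H82.one_sub_nonneg x y) _
      positivity
    have s1 : ∫ y in {y : S4 | ρ ≤ ‖(mob (l • (w : E5)) y : E5) - (w : E5)‖}, (1 + |ell x y|) ∂sig ≤
        ∫ y in {y : S4 | ρ ≤ ‖(mob (l • (w : E5)) y : E5) - (w : E5)‖}, ((1 + 1 / q) +
          q ^ 5 * (6 ^ 6 * (1 - ⟪(x : E5), (y : E5)⟫_ℝ) ^ (-1 : ℝ) + 1)) ∂sig := by
      apply integral_mono_of_nonneg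
      · exact Eventually.of_forall fun y => by positivity
      · exact (hiA.add hiB).integrableOn
      · exact Eventually.of_forall hpt
    have s2 : ∫ y in {y : S4 | ρ ≤ ‖(mob (l • (w : E5)) y : E5) - (w : E5)‖}, ((1 + 1 / q) +
          q ^ 5 * (6 ^ 6 * (1 - ⟪(x : E5), (y : E5)⟫_ℝ) ^ (-1 : ℝ) + 1)) ∂sig =
        (∫ y in {y : S4 | ρ ≤ ‖(mob (l • (w : E5)) y : E5) - (w : E5)‖}, (1 + 1 / q) ∂sig) +
        ∫ y in {y : S4 | ρ ≤ ‖(mob (l • (w : E5)) y : E5) - (w : E5)‖},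
          q ^ 5 * (6 ^ 6 * (1 - ⟪(x : E5), (y : E5)⟫_ℝ) ^ (-1 : ℝ) + 1) ∂sig :=
      integral_add hiA.integrableOn hiB.integrableOn
    have s3 : (∫ y in {y : S4 | ρ ≤ ‖(mob (l • (w : E5)) y : E5) - (w : E5)‖},
        (1 + 1 / q) ∂sig) ≤ 2 * C₃ * q ^ 5 := by
      rw [setIntegral_const, smul_eq_mul]
      have hq' : 0 ≤ 1 + 1 / q := by positivity
      calc sig.real {y : S4 | ρ ≤ ‖(mob (l • (w : E5)) y : E5) - (w : E5)‖} * (1 + 1 / q)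
          ≤ C₃ * q ^ 6 * (1 + 1 / q) := mul_le_mul_of_nonneg_right third hq'
        _ = C₃ * q ^ 5 * (q + 1) := by
            field_simp
        _ ≤ C₃ * q ^ 5 * 2 := by
            apply mul_le_mul_of_nonneg_left _ (by positivity)
            linarith
        _ = 2 * C₃ * q ^ 5 := by ring
    have s4 : ∫ y in {y : S4 | ρ ≤ ‖(mob (l • (w : E5)) y : E5) - (w : E5)‖},
          q ^ 5 * (6 ^ 6 * (1 - ⟪(x : E5), (y : E5)⟫_ℝ) ^ (-1 : ℝ) + 1) ∂sig ≤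
        (6 ^ 6 * Cp + msig) * q ^ 5 := by
      have t1 : ∫ y in {y : S4 | ρ ≤ ‖(mob (l • (w : E5)) y : E5) - (w : E5)‖},
          q ^ 5 * (6 ^ 6 * (1 - ⟪(x : E5), (y : E5)⟫_ℝ) ^ (-1 : ℝ) + 1) ∂sig ≤
          ∫ y, q ^ 5 * (6 ^ 6 * (1 - ⟪(x : E5), (y : E5)⟫_ℝ) ^ (-1 : ℝ) + 1) ∂sig :=
        setIntegral_le_integral hiB (Eventually.of_forall hnonneg)
      have t2 : ∫ y, q ^ 5 * (6 ^ 6 * (1 - ⟪(x : E5), (y : E5)⟫_ℝ) ^ (-1 : ℝ) + 1) ∂sig =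
          q ^ 5 * (6 ^ 6 * (∫ y, (1 - ⟪(x : E5), (y : E5)⟫_ℝ) ^ (-1 : ℝ) ∂sig) + msig) := by
        rw [integral_const_mul, integral_add (hI1.const_mul _) (integrable_const _),
          integral_const_mul, integral_const_sig]
        ring
      rw [t2] at t1
      refine t1.trans ?_
      have t3 : 6 ^ 6 * (∫ y, (1 - ⟪(x : E5), (y : E5)⟫_ℝ) ^ (-1 : ℝ) ∂sig) + msig ≤
          6 ^ 6 * Cp + msig := by
        linarith
      calc q ^ 5 * (6 ^ 6 * (∫ y, (1 - ⟪(x : E5), (y : E5)⟫_ℝ) ^ (-1 : ℝ) ∂sig) + msig)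
          ≤ q ^ 5 * (6 ^ 6 * Cp + msig) := mul_le_mul_of_nonneg_left t3 (by positivity)
        _ = _ := by ring
    rw [s2] at s1
    have hq5' : 0 < q ^ 5 := by positivity
    have hfin : 0 ≤ (C₁ + C₃) * q ^ 5 := by positivity
    have hexp : (C₁ + C₃ + (2 * C₃ + (6 ^ 6 * Cp + msig))) * q ^ 5 =
        (C₁ + C₃) * q ^ 5 + (2 * C₃ * q ^ 5 + (6 ^ 6 * Cp + msig) * q ^ 5) := by ring
    rw [hexp]
    exact (s1.trans (add_le_add s3 s4)).trans (le_add_of_nonneg_left hfin)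
  · apply mul_le_mul_of_nonneg_right _ (by positivity)
    have : 0 ≤ C₁ + (2 * C₃ + (6 ^ 6 * Cp + msig)) := by positivity
    linarith

end Pool.Agent.PQP.H65
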