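import Pool.Agent.PQP.StmtsV

/-!
# Squad PQP, row NLP (helper65): balanced solutions have bounded exponential moments
-/

set_option autoImplicit false

open scoped InnerProductSpace Topology ContDiff Manifold
open MeasureTheory Filter Set

noncomputable section

namespace Pool.Agent.PQP.H65

open Pool.Agent.PQP Pool.Agent.Helper42_Paneitz Pool.Agent.Helper82_Vir Pool.Agent.FLX

theorem nlp (hNOC : NocStmt) (hJEN : JenStmt) (hCOV : CovStmt) : NlpStmt := by
  obtain ⟨u, θ, hu, hu1, hθ, h⟩ := hNOC (1 / 10) (by norm_num)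
  obtain ⟨C, hC, hJ⟩ := hJEN 4 (1 / 10) (by norm_num) (by norm_num) (by norm_num)
  refine ⟨C * u ^ (-(4 * 4 : ℝ)), θ, by positivity, hθ, ?_⟩
  intro W f G b hLG hS hb hB hsq
  have hD := (hCOV b hb).1 f hS.1
  have h1 := hJ (pull b f) univ u hD MeasurableSet.univ hu hu1
    (fun x _ => h W f G b hLG hS hb hB hsq x)
  rw [setIntegral_univ] at h1
  have e : (4 : ℝ) * 4 = 16 := by norm_num
  rw [e] at h1
  rw [e]
  exact h1

end Pool.Agent.PQP.H65
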